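import Pool.Agent.KS6_42.SQA.Ball

/-!
# Boundaries of squeezed balls of positive index: counterexamples for all `2 ≤ l < d`, `m ≥ 3`

Let `U = {1, x_1, …, x_m, x_m^2, …, x_m^d}` with `m ≥ 3`, and let `2 ≤ l < d`. The complex `Δ_l(U)` is a
ball of dimension `d + l - 1`, and its boundary is not a Kalai squeezed sphere.

* Ball: put `W = {m + 3, …, m + l + d}`. Starting with the simplex `{1, m + 2} ∪ W` subdivide the edges
  `{a, m + 2}` by `a + 1`, `a = 1, …, m - 1`, and then the face `A = V \ {m + 1, m + 3, …, m + 2l - 1}`,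
  `V = {m, …, m + l + d}`, by `m + 1`. The result is `Δ_l(U)`; its facets in `V` are the sets `V \ {a}`,
  `a ∈ A`, so that `B = {m + 1, m + 3, …, m + 2l - 1}` is not a face of the boundary.
* Let `S = ∂Δ_t(I)`, `t ≥ d_max(I)`, be of the same dimension, that is `t + d_max(I) = d + l`. If
  `Y ⊆ W' = {m' + 3, …, m' + l + d}` has less than `l` elements and `v` is a vertex, then `Y ∪ {v}` is a
  face of `S`: the ridges `F(x_v) \ {m' + 2j + 1}` (or those of the top facet) are boundary ridges, and
  one of the odd vertices is not in `Y`. An isomorphism from `S` to the boundary of `Δ_l(U)` maps the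
  `d + l - 2` elements of `W'` to vertices that are joined to all others, and these are in `W`, because
  `m ≥ 3`. So it maps `W'` onto `W`, and `B = {m + 1} ∪ (B ∩ W)` would be a face.
-/

set_option autoImplicit false

namespace Pool.Agent.Results.MP_7f3eea_co.EveryIndex

open Pool.Agent.Helper221.SQ Pool.Agent.KS6_42.SQA

/-- Let `m ≥ 3` and `2 ≤ l < d`. For the shifted order ideal `U = {1, x_1, …, x_m, x_m^2, …, x_m^d}` the
squeezed complex `Δ_l(U)`, `l < d = d_max(U)`, is a ball, and its boundary is not isomorphic to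
`∂Δ_t(I)` for any shifted order ideal `I` (in any number of variables) and any `t ≥ d_max(I)`. -/
theorem result (m d l : ℕ) (hm : 3 ≤ m) (h2 : 2 ≤ l) (hld : l < d) :
    ∃ I : ShiftedIdeal m,
      (∀ u, u ∈ I.U ↔ (∃ i, 1 ≤ i ∧ i ≤ m ∧ u = {i}) ∨ ∃ k, k ≤ d ∧ u = Multiset.replicate k m) ∧
      I.dmax = d ∧ IsBall (I.facets l) (I.dmax + l - 1) ∧
      ¬ IsSqueezedSphere (bdry (I.facets l)) :=
  ⟨Ex m d (by omega), fun _ => mem_UU, Ex_dmax _ (by omega), isBall' _ (by omega) hld,
    not_squeezed' _ hm h2 hld⟩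

end Pool.Agent.Results.MP_7f3eea_co.EveryIndex
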